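import Pool.Graph.R_pool_sql_team_seeded_b3bd081e.H613T.LinCov10

/-!
# One family of columns bounds `f 2`
-/

set_option autoImplicit false

namespace Pool.Agent.Helper87.CV

open Finset Filter N8b55e67f
open Pool.Agent.H613T.LC

/-- `N` columns in `W` such that every element of `W` is the sum of two columns with different
indices bound `f 2`. -/
theorem f_le_columns (N : ℕ) (hN : 1 ≤ N) (W : Type) [AddCommGroup W] [Module (ZMod 2) W] [Finite W]
    (a : Fin N → W) (ha : Cov a 2) :
    f 2 ≤ ENNReal.ofReal ((N : ℝ) ^ 2 / (2 * Nat.card W)) := by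
  have hW0 : (0 : ℝ) < Nat.card W := by exact_mod_cast Nat.card_pos
  set x : ℝ := (N : ℝ) ^ 2 / (2 * Nat.card W) with hx
  have hx0 : 0 ≤ x := by rw [hx]; positivity
  have key : ∀ ε : ℝ, 0 < ε → f 2 ≤ ENNReal.ofReal ((1 + ε) * x) := by
    intro ε hε
    unfold f
    refine Filter.liminf_le_of_frequently_le ?_ (by isBoundedDefault)
    rw [Filter.frequently_atTop]
    intro M
    set J := M + 3 * 2 + ⌈(2 : ℝ) + 2 * 2 / ε⌉₊ + N + 1 with hJ
    have h2J : J < 2 ^ J := Nat.lt_two_pow_self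
    have hnJ : 2 ^ J ≤ N * 2 ^ J := Nat.le_mul_of_pos_left _ hN
    refine ⟨N * 2 ^ J, by omega, ?_⟩
    obtain ⟨V', _, _, _, b, hb, hV'⟩ := lift N 2 J (by omega) (by omega) W a ha
    have hden := density_le 2 (N * 2 ^ J) (by simp) V' b hb
    refine hden.trans ?_
    have hV'0 : (0 : ℝ) < Nat.card V' := by exact_mod_cast Nat.card_pos
    have e2 : (Nat.card (hammingBall (N * 2 ^ J) 2) : ENNReal) / (Nat.card V' : ENNReal)
        = ENNReal.ofReal ((Nat.card (hammingBall (N * 2 ^ J) 2) : ℝ) / Nat.card V') := by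
      rw [ENNReal.ofReal_div_of_pos hV'0, ENNReal.ofReal_natCast, ENNReal.ofReal_natCast]
    rw [e2]
    refine ENNReal.ofReal_le_ofReal ?_
    rw [div_le_iff₀ hV'0]
    have hb1 := ball_le_eps (N * 2 ^ J) 2 (by norm_num) ε hε (by omega)
      ((Nat.le_ceil _).trans (by
        have h : ⌈((2 : ℕ) : ℝ) + 2 * ((2 : ℕ) : ℝ) / ε⌉₊ ≤ N * 2 ^ J := by
          push_cast
          omega
        exact_mod_cast h))
    have h6 : (Nat.card V' : ℝ) = Nat.card W * ((2 : ℝ) ^ J) ^ 2 := by
      rw [hV', pow_mul]; push_cast; rfl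
    have h7 : (Nat.card (hammingBall (N * 2 ^ J) 2) : ℝ) * ((2 : ℕ).factorial : ℝ)
        ≤ ((1 + ε) * x * Nat.card V') * ((2 : ℕ).factorial : ℝ) := by
      refine hb1.trans (le_of_eq ?_)
      rw [h6, hx]
      push_cast
      simp only [Nat.factorial]
      push_cast
      rw [mul_pow]
      field_simp
    exact le_of_mul_le_mul_right h7 (by exact_mod_cast Nat.factorial_pos 2)
  refine ENNReal.le_of_forall_pos_le_add fun η hη _ => ?_
  rcases hx0.eq_or_lt with h0 | h0
  · have := key 1 one_pos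
    rw [← h0] at this
    simp at this
    rw [this]; exact bot_le
  · have h1 := key ((η : ℝ) / x) (div_pos (by exact_mod_cast hη) h0)
    refine h1.trans (le_of_eq ?_)
    rw [add_mul, one_mul, div_mul_cancel₀ _ h0.ne', ENNReal.ofReal_add h0.le (by positivity)]
    simp

end Pool.Agent.Helper87.CV
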