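import Pool.Agent.Helper87.CV.Bound

/-!
# Concatenation with slopes
-/

set_option autoImplicit false

namespace Pool.Agent.Helper87.CV

open Finset
open Pool.Agent.H613T.LC

variable {W F : Type} [AddCommGroup W] [Field F]

/-- the vector `x` in the direction of the slope `b` (`none` is the vertical direction) -/
def colv : Option F → F → F × F
  | none, x => (0, x)
  | some b, x => (x, b * x)

lemma colv_zero (b : Option F) : colv b (0 : F) = 0 := by
  cases b <;> simp [colv] <;> rfl

lemma solve (b c : Option F) (h : b ≠ c) (y z : F) :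
    ∃ x x' : F, colv b x + colv c x' = (y, z) := by
  cases b with
  | none =>
    cases c with
    | none => exact absurd rfl h
    | some c =>
      refine ⟨z - c * y, y, ?_⟩
      simp [colv]
  | some b =>
    cases c with
    | none =>
      refine ⟨y, z - b * y, ?_⟩
      simp [colv]
    | some c =>
      have hbc : b - c ≠ 0 := by
        intro h0
        apply h
        rw [sub_eq_zero.1 h0]
      refine ⟨(z - c * y) / (b - c), y - (z - c * y) / (b - c), ?_⟩
      simp only [colv, Prod.mk_add_mk]
      refine Prod.ext ?_ ?_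
      · simp
      · show b * ((z - c * y) / (b - c)) + c * (y - (z - c * y) / (b - c)) = z
        field_simp
        ring

/-- the columns of the concatenated code -/
def cc {N : ℕ} (a : Fin N → W) (β : Fin N → Option F) : (Fin N × F) ⊕ Unit → W × F × F
  | Sum.inl p => (a p.1, colv (β p.1) p.2)
  | Sum.inr _ => 0

theorem concat {N : ℕ} (a : Fin N → W) (β : Fin N → Option F) (h2 : ∀ w : W, w + w = 0)
    (hβ : Function.Surjective β) (i0 : Fin N) (hi0 : a i0 = 0)
    (h : ∀ s : W, s ≠ 0 → ∃ i j, β i ≠ β j ∧ a i + a j = s) : Cov (cc a β) 2 := by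
  classical
  rintro ⟨s, y, z⟩
  by_cases hs : s = 0
  · subst hs
    by_cases hy : y = 0
    · subst hy
      by_cases hz : z = 0
      · subst hz
        refine ⟨{Sum.inl (i0, 0), Sum.inr ()}, Finset.card_pair (by simp), ?_⟩
        rw [Finset.sum_pair (by simp)]
        show (a i0, colv (β i0) 0) + 0 = _
        rw [hi0, colv_zero, add_zero]
        rfl
      · obtain ⟨i, hi⟩ := hβ none
        have hne : (Sum.inl (i, z) : (Fin N × F) ⊕ Unit) ≠ Sum.inl (i, 0) := by
          simp [hz]
        refine ⟨{Sum.inl (i, z), Sum.inl (i, 0)}, Finset.card_pair hne, ?_⟩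
        rw [Finset.sum_pair hne]
        simp only [cc, hi, colv_zero]
        simp [colv, h2]
    · obtain ⟨i, hi⟩ := hβ (some (z / y))
      have hne : (Sum.inl (i, y) : (Fin N × F) ⊕ Unit) ≠ Sum.inl (i, 0) := by
        simp [hy]
      refine ⟨{Sum.inl (i, y), Sum.inl (i, 0)}, Finset.card_pair hne, ?_⟩
      rw [Finset.sum_pair hne]
      simp only [cc, hi, colv_zero]
      simp [colv, h2, div_mul_cancel₀ _ hy]
  · obtain ⟨i, j, hij, hsum⟩ := h s hs
    obtain ⟨x, x', hx⟩ := solve (β i) (β j) hij y z
    have hne : (Sum.inl (i, x) : (Fin N × F) ⊕ Unit) ≠ Sum.inl (j, x') := by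
      intro he
      have := (Prod.mk.inj (Sum.inl.inj he)).1
      exact hij (by rw [this])
    refine ⟨{Sum.inl (i, x), Sum.inl (j, x')}, Finset.card_pair hne, ?_⟩
    rw [Finset.sum_pair hne]
    show (a i, colv (β i) x) + (a j, colv (β j) x') = (s, y, z)
    rw [Prod.mk_add_mk, hsum, hx]

end Pool.Agent.Helper87.CV
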