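import Pool.Agent.Helper87.CV.Data

/-!
# The bound for `f 2`
-/

set_option autoImplicit false

namespace Pool.Agent.Helper87.CV

open Finset
open Pool.Agent.H613T.LC
open N8b55e67f

/-- the bits of a number -/
def bits (m : ℕ) : Fin 10 → ZMod 2 := fun k => if m.testBit k then 1 else 0

lemma bits_xor (a b : ℕ) : bits (Nat.xor a b) = bits a + bits b := by
  funext k
  have h : (Nat.xor a b).testBit k = ((a.testBit k) ^^ (b.testBit k)) := Nat.testBit_xor a b k
  simp only [bits, Pi.add_apply, h]
  cases a.testBit k <;> cases b.testBit k <;> simp <;> decide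

lemma zz : ∀ z : ZMod 2, z + z = 0 := by decide

lemma bits_surj (s : Fin 10 → ZMod 2) : ∃ t, t < 1024 ∧ bits t = s := by
  classical
  refine ⟨Nat.ofBits (fun k : Fin 10 => decide (s k = 1)), Nat.ofBits_lt_two_pow _, ?_⟩
  funext k
  simp only [bits]
  rw [Nat.testBit_ofBits_lt _ _ k.2]
  have h : ∀ z : ZMod 2, (if decide (z = 1) = true then (1 : ZMod 2) else 0) = z := by decide
  exact h (s k)

theorem f2_le : f 2 ≤ ENNReal.ofReal (2666689 / 2097152) := by
  classical
  have : Fact (Nat.Prime 2) := ⟨Nat.prime_two⟩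
  let F := GaloisField 2 5
  have : Finite F := inferInstance
  have hF : Nat.card F = 2 ^ 5 := GaloisField.card 2 5 (by norm_num)
  let _ : Fintype F := Fintype.ofFinite F
  have hF' : Fintype.card F = 32 := by rw [← Nat.card_eq_fintype_card]; exact hF
  let e : Fin 33 ≃ Option F := (Fintype.equivFinOfCardEq (by
    rw [Fintype.card_option, hF'])).symm
  let a : Fin 51 → (Fin 10 → ZMod 2) := fun i => bits (cols.getD i 0)
  let β : Fin 51 → Option F := fun i => e ⟨clss.getD i 0, clss_lt i⟩
  have hcov : Cov (cc a β) 2 := by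
    refine concat a β ?_ ?_ ⟨0, by norm_num⟩ ?_ ?_
    · intro w
      funext k
      exact zz (w k)
    · intro c
      obtain ⟨c', rfl⟩ := e.surjective c
      obtain ⟨i, hi⟩ := clss_surj c'
      refine ⟨i, ?_⟩
      show e _ = e _
      congr 1
      exact Fin.ext hi
    · funext k
      show bits (cols.getD 0 0) k = 0
      simp [cols, bits]
    · intro s hs
      obtain ⟨t, ht, rfl⟩ := bits_surj s
      have ht0 : 1 ≤ t := by
        rcases Nat.eq_zero_or_pos t with h | h
        · exfalso
          apply hs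
          rw [h]
          funext k
          simp [bits]
        · exact h
      obtain ⟨i, j, hi, hj, hc, hx⟩ := all_syn t ht0 ht
      refine ⟨⟨i, hi⟩, ⟨j, hj⟩, ?_, ?_⟩
      · intro h
        apply hc
        have := e.injective h
        exact Fin.mk.inj_iff.1 this
      · show bits (cols.getD i 0) + bits (cols.getD j 0) = bits t
        rw [← bits_xor, hx]
  have hcard : Fintype.card ((Fin 51 × F) ⊕ Unit) = 1633 := by
    rw [Fintype.card_sum, Fintype.card_prod, Fintype.card_fin, hF', Fintype.card_unit]
  let e2 : Fin 1633 ≃ (Fin 51 × F) ⊕ Unit := (Fintype.equivFinOfCardEq hcard).symm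
  have hcov2 : Cov (fun k => cc a β (e2 k)) 2 := by
    refine Cov.equiv e2.symm ?_
    intro s
    obtain ⟨I, h1, h2⟩ := hcov s
    refine ⟨I, h1, ?_⟩
    simpa using h2
  have hb := f_le_columns 1633 (by norm_num) ((Fin 10 → ZMod 2) × F × F) _ hcov2
  refine hb.trans (le_of_eq ?_)
  congr 1
  have hW : Nat.card ((Fin 10 → ZMod 2) × F × F) = 1048576 := by
    rw [Nat.card_prod, Nat.card_prod, hF, Nat.card_eq_fintype_card]
    simp [ZMod.card]
  rw [hW]
  norm_num

end Pool.Agent.Helper87.CV
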